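import Mathlib
import Pool.Agent.H917R2.Tr.Stubs

/-!
Bounded projections onto von Neumann algebras (MP_68d413_an, S03379): definitions.
-/

set_option autoImplicit false

open scoped ComplexOrder InnerProductSpace ComplexConjugate Topology
open Filter

noncomputable section

namespace H917R2.BP

open H759R2.Kad H710R2.DP H917R2.Tr

/-- Bounded operators. -/
abbrev BH (H : Type) [NormedAddCommGroup H] [InnerProductSpace ℂ H] : Type := H →L[ℂ] H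

section basic

variable {H K K0 : Type} [NormedAddCommGroup H] [InnerProductSpace ℂ H] [CompleteSpace H]
  [NormedAddCommGroup K] [InnerProductSpace ℂ K] [CompleteSpace K]
  [NormedAddCommGroup K0] [InnerProductSpace ℂ K0] [CompleteSpace K0]

/-- `∑ x_i* x_i ≤ c`. -/
def ColB {ι : Type} [Fintype ι] (x : ι → BH K) (c : ℝ) : Prop :=
  ∀ η : K, ∑ i, ‖x i η‖ ^ 2 ≤ c * ‖η‖ ^ 2

/-- `∑ x_i x_i* ≤ c`. -/
def RowB {ι : Type} [Fintype ι] (x : ι → BH K) (c : ℝ) : Prop :=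
  ColB (fun i => star (x i)) c

/-- Row and column bounds for a linear map. -/
def RCB (P : BH K →ₗ[ℂ] BH K) (κ δ : ℝ) : Prop :=
  ∀ (n : ℕ) (x : Fin n → BH K) (c r : ℝ), ColB x c → RowB x r →
    ColB (fun i => P (x i)) (κ * (c + δ * r)) ∧ RowB (fun i => P (x i)) (κ * (r + δ * c))

/-- `P` is a linear projection of `B(K)` onto `N` of norm at most `C`. -/
structure BPr (N : VonNeumannAlgebra K) (P : BH K →ₗ[ℂ] BH K) (C : ℝ) : Prop where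
  bd : ∀ x, ‖P x‖ ≤ C * ‖x‖
  mem : ∀ x, P x ∈ N
  id : ∀ m ∈ N, P m = m

/-- A contractive linear map `B(K) → N` which is `m ↦ e m e` on `N`. -/
def InjC (N : VonNeumannAlgebra K) (e : BH K) : Prop :=
  ∃ E : BH K →ₗ[ℂ] BH K, (∀ x, ‖E x‖ ≤ ‖x‖) ∧ (∀ x, E x ∈ N) ∧ ∀ m ∈ N, E m = e * m * e

/-- `N` is the corner `e M e`, acting on `K = e H`. -/
structure Cor (M : VonNeumannAlgebra H) (e : BH H) (N : VonNeumannAlgebra K)
    (io : K →L[ℂ] H) : Prop where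
  isom : ContinuousLinearMap.adjoint io ∘L io = 1
  rng : io ∘L ContinuousLinearMap.adjoint io = e
  mem : ∀ y : BH K, y ∈ N ↔ io ∘L y ∘L ContinuousLinearMap.adjoint io ∈ M

/-- The central projection `z` is finite. -/
def FinP (M : VonNeumannAlgebra H) (z : BH H) : Prop :=
  ∀ v ∈ M, star v * v = z → z * v = v → v * star v = z

/-- `z` is properly infinite: there are arbitrarily many isometries with orthogonal ranges. -/
def PC (M : VonNeumannAlgebra H) (z : BH H) : Prop :=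
  ∀ n : ℕ, ∃ w : Fin n → BH H, (∀ i, w i ∈ M ∧ z * w i = w i) ∧
    ∀ i j, star (w i) * w j = if i = j then z else 0

/-- There is a finite separating family of vectors. -/
def Fth (N : VonNeumannAlgebra K) : Prop :=
  ∃ (k : ℕ) (ξ : Fin k → K), ∀ x ∈ N, (∀ i, x (ξ i) = 0) → x = 0

/-- `vf ζ` is a faithful normal tracial state of `N`. -/
structure TrS (N : VonNeumannAlgebra K) (ζ : ℕ → K) : Prop where
  sq : Sq ζ
  one : vf ζ 1 = 1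
  tr : ∀ x ∈ N, ∀ y ∈ N, vf ζ (x * y) = vf ζ (y * x)
  fa : ∀ x ∈ N, vf ζ (star x * x) = 0 → x = 0

/-- `n` isometries `K0 → K` with orthogonal ranges, compatible with `N` and `N0`. -/
structure Amp (N : VonNeumannAlgebra K) (N0 : VonNeumannAlgebra K0) (n : ℕ)
    (V : Fin n → (K0 →L[ℂ] K)) : Prop where
  orth : ∀ i j, ContinuousLinearMap.adjoint (V i) ∘L V j = if i = j then 1 else 0
  comp : ∀ x ∈ N, ∀ i j, ContinuousLinearMap.adjoint (V i) ∘L x ∘L V j ∈ N0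
  ext : ∀ y ∈ N0, ∀ i j, V i ∘L y ∘L ContinuousLinearMap.adjoint (V j) ∈ N

/-- `φ` is a state. -/
def IsSt (φ : BH K →ₗ[ℂ] ℂ) : Prop := φ 1 = 1 ∧ ∀ x, 0 ≤ φ (star x * x)

/-- Family closed under the adjoint. -/
def Sym {ι : Type} (v : ι → BH K) : Prop := ∃ σ : ι ≃ ι, ∀ i, v (σ i) = star (v i)

/-- Family of unitaries of `N`. -/
def UniF {ι : Type} (N : VonNeumannAlgebra K) (u : ι → BH K) : Prop :=
  ∀ i, u i ∈ N ∧ star (u i) * u i = 1 ∧ u i * star (u i) = 1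

end basic

/-- The Hilbert space `K ⊗ conj K` (Hilbert-Schmidt operators), `t a b = a ⊗ conj b`. -/
structure Ten (K 𝓗 : Type) [NormedAddCommGroup K] [InnerProductSpace ℂ K] [CompleteSpace K]
    [NormedAddCommGroup 𝓗] [InnerProductSpace ℂ 𝓗] [CompleteSpace 𝓗] where
  t : K → K → 𝓗
  inn : ∀ a b c d, ⟪t a b, t c d⟫_ℂ = ⟪a, c⟫_ℂ * ⟪d, b⟫_ℂ
  dense : (Submodule.span ℂ (Set.range fun p : K × K => t p.1 p.2)).topologicalClosure = ⊤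
  L : BH K →⋆ₐ[ℂ] BH 𝓗
  L_t : ∀ x a b, L x (t a b) = t (x a) b
  J : 𝓗 ≃ₗᵢ⋆[ℂ] 𝓗
  J_t : ∀ a b, J (t a b) = t b a

section ten

variable {K 𝓗 : Type} [NormedAddCommGroup K] [InnerProductSpace ℂ K] [CompleteSpace K]
  [NormedAddCommGroup 𝓗] [InnerProductSpace ℂ 𝓗] [CompleteSpace 𝓗]

/-- `R y = J L(y) J`, so `R y (t a b) = t a (y b)`. -/
def Ten.R (T : Ten K 𝓗) (y : BH K) : BH 𝓗 :=
  (T.J.toContinuousLinearEquiv : 𝓗 →SL[starRingEnd ℂ] 𝓗).comp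
    ((T.L y).comp (T.J.toContinuousLinearEquiv : 𝓗 →SL[starRingEnd ℂ] 𝓗))

/-- `∑ L(v_i) R(v_i)`, i.e. `h ↦ ∑ v_i h v_i*`. -/
def Phi (T : Ten K 𝓗) {ι : Type} [Fintype ι] (v : ι → BH K) : BH 𝓗 :=
  ∑ i, T.L (v i) * T.R (v i)

end ten

section forms

variable {K : Type} [NormedAddCommGroup K] [InnerProductSpace ℂ K] [CompleteSpace K]

/-- `∑ ‖x ξ_i‖²`. -/
def nn {k : ℕ} (ξ : Fin k → K) (x : BH K) : ℝ := ∑ i, ‖x (ξ i)‖ ^ 2

/-- Hermitian form on `N`, linear in the first variable. -/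
structure Ses (N : VonNeumannAlgebra K) (γ : BH K → BH K → ℂ) : Prop where
  add : ∀ x ∈ N, ∀ y ∈ N, ∀ w ∈ N, γ (x + y) w = γ x w + γ y w
  smul : ∀ c : ℂ, ∀ x ∈ N, ∀ w ∈ N, γ (c • x) w = c * γ x w
  herm : ∀ x ∈ N, ∀ y ∈ N, γ y x = conj (γ x y)

/-- `G` is the self-polar form of the functional `x ↦ ∑ ⟪ξ_i, x ξ_i⟫` of `N`. -/
structure SPG {k : ℕ} (N : VonNeumannAlgebra K) (ξ : Fin k → K) (G : BH K → BH K → ℂ) :
    Prop where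
  ses : Ses N G
  pos : ∀ x ∈ N, 0 ≤ (G x x).re
  df : ∀ x ∈ N, G x x = 0 → x = 0
  one : ∀ x ∈ N, G x 1 = ∑ i, ⟪ξ i, x (ξ i)⟫_ℂ
  bd : ∀ x ∈ N, ∀ y ∈ N, ‖G x y‖ ^ 2 ≤ nn ξ x * nn ξ (star y)
  cp : ∀ (n : ℕ) (a b : Fin n → BH K), (∀ i, a i ∈ N ∧ b i ∈ N) →
    0 ≤ (∑ i, ∑ j, G (star (a i) * a j) (star (b i) * b j)).re
  max : ∀ γ : BH K → BH K → ℂ, Ses N γ → (∀ x ∈ N, 0 ≤ (γ x x).re) →
    (∀ x ∈ N, ∀ y ∈ N, ‖γ x y‖ ^ 2 ≤ nn ξ x * nn ξ (star y)) →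
    ∀ x ∈ N, (γ x x).re ≤ (G x x).re
  rep : ∀ ψ : BH K →ₗ[ℂ] ℂ,
    (∀ a ∈ N, ∀ b ∈ N, ‖ψ (star b * a)‖ ^ 2 ≤ nn ξ a * nn ξ b) →
    ∃ y ∈ N, ‖y‖ ≤ 1 ∧ ∀ x ∈ N, ψ x = G x y

end forms

section sp

variable {H Hb : Type} [NormedAddCommGroup H] [InnerProductSpace ℂ H] [CompleteSpace H]
  [NormedAddCommGroup Hb] [InnerProductSpace ℂ Hb] [CompleteSpace Hb]

/-- `H ⊕ conj H`. -/
abbrev WW (H Hb : Type) [NormedAddCommGroup H] [NormedAddCommGroup Hb] : Type :=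
  WithLp 2 (H × Hb)

/-- `(x ξ, conj (x* ξ))`. -/
def uu (c : H ≃ₗᵢ⋆[ℂ] Hb) (ξ : H) (x : BH H) : WW H Hb := WithLp.toLp 2 (x ξ, c (star x ξ))

/-- `(x ξ, - conj (x* ξ))`. -/
def vv (c : H ≃ₗᵢ⋆[ℂ] Hb) (ξ : H) (x : BH H) : WW H Hb := WithLp.toLp 2 (x ξ, -c (star x ξ))

/-- Closure of `{(x ξ, conj (x* ξ)) : x ∈ M}`. -/
def KK (c : H ≃ₗᵢ⋆[ℂ] Hb) (ξ : H) (M : VonNeumannAlgebra H) : Submodule ℂ (WW H Hb) :=
  (Submodule.span ℂ (uu c ξ '' (M : Set (BH H)))).topologicalClosure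

/-- The projection `(h, k) ↦ (h, 0)`. -/
def pp (H Hb : Type) [NormedAddCommGroup H] [InnerProductSpace ℂ H]
    [NormedAddCommGroup Hb] [InnerProductSpace ℂ Hb] : BH (WW H Hb) :=
  (WithLp.prodContinuousLinearEquiv 2 ℂ H Hb).symm.toContinuousLinearMap ∘L
    ((ContinuousLinearMap.inl ℂ H Hb) ∘L (ContinuousLinearMap.fst ℂ H Hb)) ∘L
      (WithLp.prodContinuousLinearEquiv 2 ℂ H Hb).toContinuousLinearMap

omit [CompleteSpace H] [CompleteSpace Hb] in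
theorem pp_apply (w : WW H Hb) : pp H Hb w = WithLp.toLp 2 (w.fst, 0) := by
  simp [pp]

instance kk_complete (c : H ≃ₗᵢ⋆[ℂ] Hb) (ξ : H) (M : VonNeumannAlgebra H) :
    CompleteSpace (KK c ξ M) :=
  (Submodule.isClosed_topologicalClosure _).completeSpace_coe

/-- The orthogonal projection of `H ⊕ conj H` onto `KK`. -/
def PK (c : H ≃ₗᵢ⋆[ℂ] Hb) (ξ : H) (M : VonNeumannAlgebra H) : BH (WW H Hb) :=
  (KK c ξ M).starProjection

/-- `X = Π p (1 - Π)`. -/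
def XX (c : H ≃ₗᵢ⋆[ℂ] Hb) (ξ : H) (M : VonNeumannAlgebra H) : BH (WW H Hb) :=
  PK c ξ M * pp H Hb * (1 - PK c ξ M)

/-- `T = |X*|`, the square root of `Π p (1 - Π) p Π = a (1 - a)`, `a = Π p Π`. -/
def TT (c : H ≃ₗᵢ⋆[ℂ] Hb) (ξ : H) (M : VonNeumannAlgebra H) : BH (WW H Hb) :=
  CFC.sqrt (XX c ξ M * star (XX c ξ M))

/-- The self-polar form. -/
def GG (c : H ≃ₗᵢ⋆[ℂ] Hb) (ξ : H) (M : VonNeumannAlgebra H) (x y : BH H) : ℂ :=
  ⟪uu c ξ y, TT c ξ M (uu c ξ x)⟫_ℂ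

/-- `ξ` is cyclic and separating for `M`. -/
structure CySe (M : VonNeumannAlgebra H) (ξ : H) : Prop where
  nrm : ‖ξ‖ = 1
  sep : ∀ x ∈ M, x ξ = 0 → x = 0
  cyc : ∀ η : H, (∀ x ∈ M, ⟪η, x ξ⟫_ℂ = 0) → η = 0
  sep' : ∀ x ∈ M.commutant, x ξ = 0 → x = 0
  cyc' : ∀ η : H, (∀ x ∈ M.commutant, ⟪η, x ξ⟫_ℂ = 0) → η = 0

/-- Positive operator matrix. -/
def PosM {ι : Type} [Fintype ι] (m : ι → ι → BH H) : Prop :=
  (∀ p q, star (m p q) = m q p) ∧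
    ∀ η : ι → H, 0 ≤ (∑ p, ∑ q, ⟪η p, m p q (η q)⟫_ℂ).re

end sp

/-- `F_t(a)`, see `S_fej`. -/
def Fj {n : ℕ} (t : Fin n → ℝ) (a : ℝ) : ℝ :=
  (∑ i, ∑ j, 2 * Real.sqrt (t i * t j) / (t i + t j))⁻¹ *
    ∑ i, ∑ j, 2 * Real.sqrt (t i * t j) * Real.sqrt (a * (1 - a)) / (t j * a + t i * (1 - a))

end H917R2.BP
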