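import Mathlib
import Pool.Agent.H917R2.BP.Defs

/-!
Bounded projections onto von Neumann algebras (MP_68d413_an, S03379): statements of the tasks.
-/

set_option autoImplicit false

open scoped ComplexOrder InnerProductSpace ComplexConjugate Topology
open Filter

noncomputable section

namespace H917R2.BP

open H759R2.Kad H710R2.DP H917R2.Tr

/-! ### Reduction to corners and pieces -/

/-- Corners are von Neumann algebras. -/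
def S_cut : Prop :=
  ∀ (H : Type) [NormedAddCommGroup H] [InnerProductSpace ℂ H] [CompleteSpace H]
    (M : VonNeumannAlgebra H) (e : BH H), e ∈ M → IsPr e →
    ∃ (K : Type) (_ : NormedAddCommGroup K) (_ : InnerProductSpace ℂ K) (_ : CompleteSpace K)
      (N : VonNeumannAlgebra K) (io : K →L[ℂ] H), Cor M e N io

/-- Bounded projections onto corners. -/
def S_cutP : Prop :=
  ∀ (H K : Type) [NormedAddCommGroup H] [InnerProductSpace ℂ H] [CompleteSpace H]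
    [NormedAddCommGroup K] [InnerProductSpace ℂ K] [CompleteSpace K]
    (M : VonNeumannAlgebra H) (e : BH H) (N : VonNeumannAlgebra K) (io : K →L[ℂ] H),
    Cor M e N io → ∀ (P : BH H →ₗ[ℂ] BH H) (C : ℝ), 0 ≤ C → BPr M P C →
    ∃ P' : BH K →ₗ[ℂ] BH K, BPr N P' C ∧ ∀ κ : ℝ, RCB P κ 0 → RCB P' κ 0

/-- Contractive projections lift from corners. -/
def S_cutI : Prop :=
  ∀ (H K : Type) [NormedAddCommGroup H] [InnerProductSpace ℂ H] [CompleteSpace H]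
    [NormedAddCommGroup K] [InnerProductSpace ℂ K] [CompleteSpace K]
    (M : VonNeumannAlgebra H) (e : BH H) (N : VonNeumannAlgebra K) (io : K →L[ℂ] H),
    Cor M e N io → InjC N 1 → InjC M e

/-- Type `B` is inherited by corners. -/
def S_cutB : Prop :=
  ∀ (H K : Type) [NormedAddCommGroup H] [InnerProductSpace ℂ H] [CompleteSpace H]
    [NormedAddCommGroup K] [InnerProductSpace ℂ K] [CompleteSpace K]
    (M : VonNeumannAlgebra H) (e : BH H) (N : VonNeumannAlgebra K) (io : K →L[ℂ] H),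
    Cor M e N io → ∀ z : BH H, IsCP M z → z * e = e → NoAb M z → FinP M z → NoAb N 1 ∧ FinP N 1

/-- Type `A` for the central corner. -/
def S_cutA : Prop :=
  ∀ (H K : Type) [NormedAddCommGroup H] [InnerProductSpace ℂ H] [CompleteSpace H]
    [NormedAddCommGroup K] [InnerProductSpace ℂ K] [CompleteSpace K]
    (M : VonNeumannAlgebra H) (z : BH H) (N : VonNeumannAlgebra K) (io : K →L[ℂ] H),
    Cor M z N io → IsCP M z → PieceA M z → PieceA N 1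

/-- Type `C` for the central corner. -/
def S_cutC : Prop :=
  ∀ (H K : Type) [NormedAddCommGroup H] [InnerProductSpace ℂ H] [CompleteSpace H]
    [NormedAddCommGroup K] [InnerProductSpace ℂ K] [CompleteSpace K]
    (M : VonNeumannAlgebra H) (z : BH H) (N : VonNeumannAlgebra K) (io : K →L[ℂ] H),
    Cor M z N io → IsCP M z → PC M z → PC N 1

/-- Support projection of a finite set of vectors. -/
def S_supp : Prop :=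
  ∀ (H : Type) [NormedAddCommGroup H] [InnerProductSpace ℂ H] [CompleteSpace H]
    (M : VonNeumannAlgebra H) (F : Finset H), ∃ e ∈ M, IsPr e ∧ (∀ ξ ∈ F, e ξ = ξ) ∧
      ∀ x ∈ M, (∀ ξ ∈ F, x ξ = 0) → x * e = 0

/-- The corner of a support projection has a finite separating family. -/
def S_cutF : Prop :=
  ∀ (H K : Type) [NormedAddCommGroup H] [InnerProductSpace ℂ H] [CompleteSpace H]
    [NormedAddCommGroup K] [InnerProductSpace ℂ K] [CompleteSpace K]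
    (M : VonNeumannAlgebra H) (e : BH H) (N : VonNeumannAlgebra K) (io : K →L[ℂ] H),
    Cor M e N io → ∀ F : Finset H, (∀ ξ ∈ F, e ξ = ξ) →
      (∀ x ∈ M, (∀ ξ ∈ F, x ξ = 0) → x * e = 0) → Fth N

/-- Limits along an ultrafilter in the weak operator topology. -/
def S_lim : Prop :=
  ∀ (H : Type) [NormedAddCommGroup H] [InnerProductSpace ℂ H] [CompleteSpace H]
    (M : VonNeumannAlgebra H) (I : Type) (l : Filter I) [l.NeBot]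
    (E : I → (BH H →ₗ[ℂ] BH H)) (C : ℝ), 0 ≤ C → (∀ i x, ‖E i x‖ ≤ C * ‖x‖) →
    (∀ i x, E i x ∈ M) →
    ∃ (U : Ultrafilter I), (U : Filter I) ≤ l ∧ ∃ E0 : BH H →ₗ[ℂ] BH H,
      (∀ x, ‖E0 x‖ ≤ C * ‖x‖) ∧ (∀ x, E0 x ∈ M) ∧
      ∀ (x : BH H) (a b : H), Tendsto (fun i => ⟪a, E i x b⟫_ℂ) U (𝓝 ⟪a, E0 x b⟫_ℂ)

/-- Exhaustion by supports of finite sets of vectors. -/
def S_net : Prop :=
  ∀ (H : Type) [NormedAddCommGroup H] [InnerProductSpace ℂ H] [CompleteSpace H]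
    (M : VonNeumannAlgebra H),
    (∀ F : Finset H, ∃ e ∈ M, IsPr e ∧ (∀ ξ ∈ F, e ξ = ξ) ∧ InjC M e) → InjC M 1

/-- Gluing over the centre. -/
def S_glue : Prop :=
  ∀ (H : Type) [NormedAddCommGroup H] [InnerProductSpace ℂ H] [CompleteSpace H]
    (M : VonNeumannAlgebra H),
    (∀ q, IsCP M q → q ≠ 0 → ∃ z, IsCP M z ∧ z ≠ 0 ∧ q * z = z ∧ InjC M z) → InjC M 1

/-- Infinite pieces. -/
def S_inf : Prop :=
  ∀ (H : Type) [NormedAddCommGroup H] [InnerProductSpace ℂ H] [CompleteSpace H]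
    (M : VonNeumannAlgebra H) (q : BH H), IsCP M q → ¬ FinP M q →
    ∃ z, IsCP M z ∧ z ≠ 0 ∧ q * z = z ∧ PC M z

/-- Trichotomy. -/
def S_tri : Prop :=
  ∀ (H : Type) [NormedAddCommGroup H] [InnerProductSpace ℂ H] [CompleteSpace H]
    (M : VonNeumannAlgebra H) (q : BH H), IsCP M q → q ≠ 0 →
    ∃ z, IsCP M z ∧ z ≠ 0 ∧ q * z = z ∧ (PieceA M z ∨ PC M z ∨ (NoAb M z ∧ FinP M z))

/-- Isometries with orthogonal ranges improve a bounded projection. -/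
def S_rc : Prop :=
  ∀ (K K0 : Type) [NormedAddCommGroup K] [InnerProductSpace ℂ K] [CompleteSpace K]
    [NormedAddCommGroup K0] [InnerProductSpace ℂ K0] [CompleteSpace K0]
    (N : VonNeumannAlgebra K) (N0 : VonNeumannAlgebra K0) (n : ℕ)
    (V : Fin (n + 1) → (K0 →L[ℂ] K)), Amp N N0 (n + 1) V →
    ∀ (P : BH K →ₗ[ℂ] BH K) (C : ℝ), 0 ≤ C → BPr N P C →
    ∃ P1 : BH K0 →ₗ[ℂ] BH K0, BPr N0 P1 C ∧ RCB P1 (3 * C ^ 2) (1 / (n + 1))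

/-- Properly infinite algebras. -/
def S_C : Prop :=
  ∀ (K : Type) [NormedAddCommGroup K] [InnerProductSpace ℂ K] [CompleteSpace K]
    (N : VonNeumannAlgebra K), PC N 1 → ∀ (P : BH K →ₗ[ℂ] BH K) (C : ℝ), 0 ≤ C → BPr N P C →
    ∃ P1 : BH K →ₗ[ℂ] BH K, BPr N P1 C ∧ RCB P1 (3 * C ^ 2) 0

/-- Finite type I. -/
def S_A : Prop :=
  ∀ (K : Type) [NormedAddCommGroup K] [InnerProductSpace ℂ K] [CompleteSpace K]
    (N : VonNeumannAlgebra K), PieceA N 1 → ∀ (P : BH K →ₗ[ℂ] BH K) (C : ℝ), 0 ≤ C →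
    BPr N P C → ∃ κ : ℝ, 0 ≤ κ ∧ RCB P κ 0

/-- First machine: row and column bounded projections. -/
def S_RCI : Prop :=
  ∀ (K : Type) [NormedAddCommGroup K] [InnerProductSpace ℂ K] [CompleteSpace K]
    (N : VonNeumannAlgebra K), Fth N → ∀ (P : BH K →ₗ[ℂ] BH K) (C κ : ℝ), 0 ≤ C → 0 ≤ κ →
    BPr N P C → RCB P κ 0 → InjC N 1

/-- Second machine: finite algebras without abelian projections. -/
def S_FIN : Prop :=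
  ∀ (K : Type) [NormedAddCommGroup K] [InnerProductSpace ℂ K] [CompleteSpace K]
    (N : VonNeumannAlgebra K), Fth N → NoAb N 1 → FinP N 1 →
    ∀ (P : BH K →ₗ[ℂ] BH K) (C : ℝ), 0 ≤ C → BPr N P C → InjC N 1

/-- The final statement. -/
def S_TOP : Prop :=
  ∀ (H : Type) [NormedAddCommGroup H] [InnerProductSpace ℂ H] [CompleteSpace H]
      (M : VonNeumannAlgebra H),
      (∃ P : (H →L[ℂ] H) →L[ℂ] (H →L[ℂ] H),
          (∀ x, P x ∈ M) ∧ (∀ m ∈ M, P m = m)) →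
      (∃ Q : (H →L[ℂ] H) →L[ℂ] (H →L[ℂ] H),
          (∀ x, Q x ∈ M) ∧ (∀ m ∈ M, Q m = m) ∧ ‖Q‖ ≤ 1)

/-! ### Hilbert-Schmidt operators and the decomposition lemma -/

/-- Existence of `K ⊗ conj K`. -/
def S_ten : Prop :=
  ∀ (K : Type) [NormedAddCommGroup K] [InnerProductSpace ℂ K] [CompleteSpace K],
    ∃ (𝓗 : Type) (_ : NormedAddCommGroup 𝓗) (_ : InnerProductSpace ℂ 𝓗) (_ : CompleteSpace 𝓗),
      Nonempty (Ten K 𝓗)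

/-- Properties of `R`. -/
def S_tenR : Prop :=
  ∀ (K 𝓗 : Type) [NormedAddCommGroup K] [InnerProductSpace ℂ K] [CompleteSpace K]
    [NormedAddCommGroup 𝓗] [InnerProductSpace ℂ 𝓗] [CompleteSpace 𝓗] (T : Ten K 𝓗),
    (∀ h, T.J (T.J h) = h) ∧ (∀ y a b, T.R y (T.t a b) = T.t a (y b)) ∧
    (∀ x y, T.R (x + y) = T.R x + T.R y) ∧ (∀ (c : ℂ) x, T.R (c • x) = conj c • T.R x) ∧
    (∀ x y, T.R (x * y) = T.R x * T.R y) ∧ (∀ x, T.R (star x) = star (T.R x)) ∧ T.R 1 = 1 ∧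
    (∀ x y, T.L x * T.R y = T.R y * T.L x) ∧ (∀ x, ‖T.L x‖ ≤ ‖x‖) ∧ (∀ x, ‖T.R x‖ ≤ ‖x‖) ∧
    (∀ a a' b, T.t (a + a') b = T.t a b + T.t a' b) ∧
    (∀ a b b', T.t a (b + b') = T.t a b + T.t a b') ∧
    (∀ (c : ℂ) a b, T.t (c • a) b = c • T.t a b) ∧
    ∀ (c : ℂ) a b, T.t a (c • b) = conj c • T.t a b

/-- Products of families. -/
def S_phimul : Prop :=
  ∀ (K 𝓗 : Type) [NormedAddCommGroup K] [InnerProductSpace ℂ K] [CompleteSpace K]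
    [NormedAddCommGroup 𝓗] [InnerProductSpace ℂ 𝓗] [CompleteSpace 𝓗] (T : Ten K 𝓗)
    (ι κ : Type) [Fintype ι] [Fintype κ] (v : ι → BH K) (w : κ → BH K),
    Phi T (fun p : ι × κ => v p.1 * w p.2) = Phi T v * Phi T w

/-- Schur multiplier. -/
def S_sch : Prop :=
  ∀ (d : ℕ) (ι : Type) [Fintype ι] (α β : Fin d → ℝ), (∀ p, 0 < α p) → (∀ p, 0 < β p) →
    ∀ (W : ι → Matrix (Fin d) (Fin d) ℂ) (c : ℝ),
    (∀ η : Fin d → ℂ, ∑ i, ∑ p, ‖((W i).mulVec η) p‖ ^ 2 ≤ c * ∑ p, ‖η p‖ ^ 2) →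
    ∀ η : Fin d → ℂ, ∑ i, ∑ p, ‖((Matrix.of fun p q =>
      ((Real.sqrt (α p * β q) / (α p + β q) : ℝ) : ℂ) * W i p q).mulVec η) p‖ ^ 2 ≤
        c / 4 * ∑ p, ‖η p‖ ^ 2

/-- Super-harmonic positive matrix. -/
def S_pf : Prop :=
  ∀ (d : ℕ) (ι : Type) [Fintype ι] (V : ι → Matrix (Fin d) (Fin d) ℂ) (S0 S : ℝ), 0 ≤ S0 →
    S0 < S →
    (∀ h : Matrix (Fin d) (Fin d) ℂ, ∑ p, ∑ q, ‖(∑ i, V i * h * (V i).conjTranspose) p q‖ ^ 2 ≤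
      S0 ^ 2 * ∑ p, ∑ q, ‖h p q‖ ^ 2) →
    ∃ a : Matrix (Fin d) (Fin d) ℂ, a.PosDef ∧
      ((S : ℂ) • a - ∑ i, V i * a * (V i).conjTranspose).PosSemidef

/-- Finite dimensional decomposition. -/
def S_decF : Prop :=
  ∀ (d : ℕ) (ι : Type) [Fintype ι] (V : ι → Matrix (Fin d) (Fin d) ℂ) (σ : ι ≃ ι) (S0 S l : ℝ),
    (∀ i, V (σ i) = (V i).conjTranspose) → 0 ≤ S0 → S0 < S → 0 < l →
    (∀ h : Matrix (Fin d) (Fin d) ℂ, ∑ p, ∑ q, ‖(∑ i, V i * h * (V i).conjTranspose) p q‖ ^ 2 ≤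
      S0 ^ 2 * ∑ p, ∑ q, ‖h p q‖ ^ 2) →
    ∃ X : ι → Matrix (Fin d) (Fin d) ℂ,
      (∀ η : Fin d → ℂ, ∑ i, ∑ p, ‖((X i).mulVec η) p‖ ^ 2 ≤ S / (4 * l) * ∑ p, ‖η p‖ ^ 2) ∧
      ∀ η : Fin d → ℂ, ∑ i, ∑ p, ‖((V i - X i).conjTranspose.mulVec η) p‖ ^ 2 ≤
        S * l / 4 * ∑ p, ‖η p‖ ^ 2

/-- Decomposition of a symmetric family. -/
def S_dec : Prop :=
  ∀ (K 𝓗 : Type) [NormedAddCommGroup K] [InnerProductSpace ℂ K] [CompleteSpace K]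
    [NormedAddCommGroup 𝓗] [InnerProductSpace ℂ 𝓗] [CompleteSpace 𝓗] (T : Ten K 𝓗)
    (ι : Type) [Fintype ι] (v : ι → BH K), Sym v → ∀ S l : ℝ, 0 < l → ‖Phi T v‖ < S →
    ∃ x : ι → BH K, ColB x (S / (4 * l)) ∧ RowB (fun i => v i - x i) (S * l / 4)

/-! ### The finite case -/

/-- Existence of the trace. -/
def S_trs : Prop :=
  ∀ (K : Type) [NormedAddCommGroup K] [InnerProductSpace ℂ K] [CompleteSpace K] [Nontrivial K]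
    (N : VonNeumannAlgebra K), Fth N → FinP N 1 → ∃ ζ : ℕ → K, TrS N ζ

/-- Matrix units and corners. -/
def S_amp : Prop :=
  ∀ (K : Type) [NormedAddCommGroup K] [InnerProductSpace ℂ K] [CompleteSpace K] [Nontrivial K]
    (N : VonNeumannAlgebra K) (n : ℕ) (e : Fin (n + 1) → Fin (n + 1) → BH K),
    MU N 1 (n + 1) e →
    ∃ (K0 : Type) (_ : NormedAddCommGroup K0) (_ : InnerProductSpace ℂ K0)
      (_ : CompleteSpace K0) (_ : Nontrivial K0)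
      (N0 : VonNeumannAlgebra K0) (V : Fin (n + 1) → (K0 →L[ℂ] K)),
      Amp N N0 (n + 1) V ∧ ∑ i, V i ∘L ContinuousLinearMap.adjoint (V i) = 1

/-- The trace of the corner. -/
def S_amptr : Prop :=
  ∀ (K K0 : Type) [NormedAddCommGroup K] [InnerProductSpace ℂ K] [CompleteSpace K]
    [NormedAddCommGroup K0] [InnerProductSpace ℂ K0] [CompleteSpace K0]
    (N : VonNeumannAlgebra K) (N0 : VonNeumannAlgebra K0) (n : ℕ)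
    (V : Fin (n + 1) → (K0 →L[ℂ] K)), Amp N N0 (n + 1) V →
    ∑ i, V i ∘L ContinuousLinearMap.adjoint (V i) = 1 →
    ∀ ζ : ℕ → K, TrS N ζ → ∃ ζ0 : ℕ → K0, TrS N0 ζ0 ∧ ∀ m ∈ N,
      vf ζ m = (1 / (n + 1 : ℂ)) * ∑ i, vf ζ0 (ContinuousLinearMap.adjoint (V i) ∘L m ∘L V i)

/-- Lower bound for unitaries. -/
def S_uni1 : Prop :=
  ∀ (K 𝓗 : Type) [NormedAddCommGroup K] [InnerProductSpace ℂ K] [CompleteSpace K]
    [NormedAddCommGroup 𝓗] [InnerProductSpace ℂ 𝓗] [CompleteSpace 𝓗] (T : Ten K 𝓗)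
    (N : VonNeumannAlgebra K) (ζ : ℕ → K) (P : BH K →ₗ[ℂ] BH K) (C κ δ : ℝ), TrS N ζ →
    0 ≤ C → 0 ≤ κ → 0 ≤ δ → BPr N P C → RCB P κ δ → 9 * κ * δ ≤ 1 / 2 →
    ∀ z, IsCP N z → z ≠ 0 → ∀ (ι : Type) [Fintype ι] (u : ι → BH K), UniF N u → Sym u →
      (Fintype.card ι : ℝ) ≤ 2 * κ * ‖Phi T (fun i => z * u i)‖

/-- Power trick. -/
def S_uni2 : Prop :=
  ∀ (K 𝓗 : Type) [NormedAddCommGroup K] [InnerProductSpace ℂ K] [CompleteSpace K]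
    [NormedAddCommGroup 𝓗] [InnerProductSpace ℂ 𝓗] [CompleteSpace 𝓗] (T : Ten K 𝓗)
    (N : VonNeumannAlgebra K) (κ : ℝ) (z : BH K), IsCP N z → 0 ≤ κ →
    (∀ (ι : Type) [Fintype ι] (u : ι → BH K), UniF N u → Sym u →
      (Fintype.card ι : ℝ) ≤ 2 * κ * ‖Phi T (fun i => z * u i)‖) →
    ∀ (ι : Type) [Fintype ι] (u : ι → BH K), UniF N u →
      (Fintype.card ι : ℝ) ≤ ‖Phi T (fun i => z * u i)‖

/-- Almost invariant vectors. -/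
def S_uni3 : Prop :=
  ∀ (K 𝓗 : Type) [NormedAddCommGroup K] [InnerProductSpace ℂ K] [CompleteSpace K]
    [NormedAddCommGroup 𝓗] [InnerProductSpace ℂ 𝓗] [CompleteSpace 𝓗] (T : Ten K 𝓗)
    (N : VonNeumannAlgebra K) (z : BH K), IsCP N z →
    (∀ (ι : Type) [Fintype ι] (u : ι → BH K), UniF N u →
      (Fintype.card ι : ℝ) ≤ ‖Phi T (fun i => z * u i)‖) →
    ∀ (ι : Type) [Fintype ι] (u : ι → BH K), UniF N u → ∀ ε : ℝ, 0 < ε →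
      ∃ h : 𝓗, ‖h‖ = 1 ∧ T.L z h = h ∧ T.R z h = h ∧ ∀ i, ‖T.L (u i) (T.R (u i) h) - h‖ ≤ ε

/-- Central state extending the trace. -/
def S_cst : Prop :=
  ∀ (K 𝓗 : Type) [NormedAddCommGroup K] [InnerProductSpace ℂ K] [CompleteSpace K]
    [NormedAddCommGroup 𝓗] [InnerProductSpace ℂ 𝓗] [CompleteSpace 𝓗] (T : Ten K 𝓗)
    (N : VonNeumannAlgebra K) (ζ : ℕ → K), TrS N ζ →
    (∀ z, IsCP N z → z ≠ 0 → ∀ (ι : Type) [Fintype ι] (u : ι → BH K), UniF N u →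
      ∀ ε : ℝ, 0 < ε →
      ∃ h : 𝓗, ‖h‖ = 1 ∧ T.L z h = h ∧ T.R z h = h ∧
        ∀ i, ‖T.L (u i) (T.R (u i) h) - h‖ ≤ ε) →
    ∃ φ : BH K →ₗ[ℂ] ℂ, IsSt φ ∧ (∀ m ∈ N, ∀ x, φ (m * x) = φ (x * m)) ∧
      ∀ m ∈ N, φ m = vf ζ m

/-- Lifting the central state. -/
def S_lift : Prop :=
  ∀ (K K0 : Type) [NormedAddCommGroup K] [InnerProductSpace ℂ K] [CompleteSpace K]
    [NormedAddCommGroup K0] [InnerProductSpace ℂ K0] [CompleteSpace K0]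
    (N : VonNeumannAlgebra K) (N0 : VonNeumannAlgebra K0) (n : ℕ)
    (V : Fin (n + 1) → (K0 →L[ℂ] K)), Amp N N0 (n + 1) V →
    ∑ i, V i ∘L ContinuousLinearMap.adjoint (V i) = 1 →
    ∀ (ζ : ℕ → K) (ζ0 : ℕ → K0), (∀ m ∈ N,
      vf ζ m = (1 / (n + 1 : ℂ)) *
        ∑ i, vf ζ0 (ContinuousLinearMap.adjoint (V i) ∘L m ∘L V i)) →
    (∃ φ : BH K0 →ₗ[ℂ] ℂ, IsSt φ ∧ (∀ m ∈ N0, ∀ x, φ (m * x) = φ (x * m)) ∧
      ∀ m ∈ N0, φ m = vf ζ0 m) →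
    ∃ φ : BH K →ₗ[ℂ] ℂ, IsSt φ ∧ (∀ m ∈ N, ∀ x, φ (m * x) = φ (x * m)) ∧
      ∀ m ∈ N, φ m = vf ζ m

/-- From a central state to the conditional expectation. -/
def S_trinj : Prop :=
  ∀ (K : Type) [NormedAddCommGroup K] [InnerProductSpace ℂ K] [CompleteSpace K]
    (N : VonNeumannAlgebra K) (ζ : ℕ → K), TrS N ζ →
    (∃ φ : BH K →ₗ[ℂ] ℂ, IsSt φ ∧ (∀ m ∈ N, ∀ x, φ (m * x) = φ (x * m)) ∧
      ∀ m ∈ N, φ m = vf ζ m) → InjC N 1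

/-! ### The row-column bounded case -/

/-- Existence of the self-polar form. -/
def S_spf : Prop :=
  ∀ (K : Type) [NormedAddCommGroup K] [InnerProductSpace ℂ K] [CompleteSpace K]
    (N : VonNeumannAlgebra K) (k : ℕ) (ξ : Fin k → K), ∑ i, ‖ξ i‖ ^ 2 = 1 →
    (∀ x ∈ N, (∀ i, x (ξ i) = 0) → x = 0) → ∃ G : BH K → BH K → ℂ, SPG N ξ G

/-- Abstract dyadic estimate. -/
def S_e1a : Prop :=
  ∀ (E : Type) [AddCommGroup E] [Module ℂ E] (g : E → E → ℂ) (α β : E → ℝ) (w : E) (J : ℕ)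
    (a : ℤ → E) (A B : ℝ), 0 ≤ A → 0 ≤ B →
    (∀ x y z, g (x + y) z = g x z + g y z) → (∀ x y z, g x (y + z) = g x y + g x z) →
    (∀ x y, ‖g x y‖ ≤ α x * β y) → (∀ x y, ‖g x y‖ ≤ β x * α y) →
    (∀ x, 0 ≤ α x) → (∀ x, 0 ≤ β x) → (∀ x y, α (x - y) ≤ α x + α y) →
    (∀ x y, β (x - y) ≤ β x + β y) → α w ≤ B → β w ≤ B →
    (∀ j : ℤ, α (a j) ≤ A * 2 ^ (-j)) → (∀ j : ℤ, β (w - a j) ≤ A * 2 ^ j) →
    ‖g w w‖ ≤ 2 * A * B * 2 ^ (-(J : ℤ)) + (6 + 27 * J) * A ^ 2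

/-- Dyadic estimate. -/
def S_e1 : Prop :=
  ∀ (K 𝓗 : Type) [NormedAddCommGroup K] [InnerProductSpace ℂ K] [CompleteSpace K]
    [NormedAddCommGroup 𝓗] [InnerProductSpace ℂ 𝓗] [CompleteSpace 𝓗] (T : Ten K 𝓗)
    (N : VonNeumannAlgebra K) (k : ℕ) (ξ : Fin k → K) (G : BH K → BH K → ℂ)
    (P : BH K →ₗ[ℂ] BH K) (C κ : ℝ), ∑ i, ‖ξ i‖ ^ 2 = 1 → SPG N ξ G → 0 ≤ C → 0 ≤ κ →
    BPr N P C → RCB P κ 0 →
    ∀ (ι : Type) [Fintype ι] (w : ι → BH K), (∀ i, w i ∈ N) → Sym w →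
    ∀ (S c : ℝ) (J : ℕ), ‖Phi T w‖ < S → 0 ≤ c → ColB w c → RowB w c →
      ∑ i, (G (w i) (w i)).re ≤
        2 * Real.sqrt (κ * S / 4) * Real.sqrt c * 2 ^ (-(J : ℤ)) + (6 + 27 * J) * (κ * S / 4)

/-- Squares. -/
def S_e2 : Prop :=
  ∀ (K : Type) [NormedAddCommGroup K] [InnerProductSpace ℂ K] [CompleteSpace K]
    (N : VonNeumannAlgebra K) (k : ℕ) (ξ : Fin k → K) (G : BH K → BH K → ℂ),
    ∑ i, ‖ξ i‖ ^ 2 = 1 → SPG N ξ G →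
    ∀ (ι : Type) [Fintype ι] (v : ι → BH K), (∀ i, v i ∈ N) → Sym v →
      (∑ i, (G (v i) (v i)).re) ^ 2 ≤ ∑ p : ι × ι, (G (v p.1 * v p.2) (v p.1 * v p.2)).re

/-- The form `G` is dominated by the norm on Hilbert-Schmidt operators. -/
def S_diag : Prop :=
  ∀ (K 𝓗 : Type) [NormedAddCommGroup K] [InnerProductSpace ℂ K] [CompleteSpace K]
    [NormedAddCommGroup 𝓗] [InnerProductSpace ℂ 𝓗] [CompleteSpace 𝓗] (T : Ten K 𝓗)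
    (N : VonNeumannAlgebra K) (k : ℕ) (ξ : Fin k → K) (G : BH K → BH K → ℂ)
    (P : BH K →ₗ[ℂ] BH K) (C κ : ℝ), ∑ i, ‖ξ i‖ ^ 2 = 1 → SPG N ξ G → 0 ≤ C → 0 ≤ κ →
    BPr N P C → RCB P κ 0 →
    ∀ (ι : Type) [Fintype ι] (w : ι → BH K), (∀ i, w i ∈ N) → Sym w →
      ∑ i, (G (w i) (w i)).re ≤ ‖Phi T w‖

/-- Hahn-Banach. -/
def S_hba : Prop :=
  ∀ (𝓗 : Type) [NormedAddCommGroup 𝓗] [InnerProductSpace ℂ 𝓗] [CompleteSpace 𝓗] (I : Type)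
    (X : I → BH 𝓗) (g : I → ℝ),
    (∀ (n : ℕ) (t : Fin n → I) (c : Fin n → ℝ), (∀ i, 0 ≤ c i) →
      ∑ i, c i * g (t i) ≤ ‖∑ i, (c i : ℂ) • X (t i)‖) →
    ∃ Ψ : BH 𝓗 →L[ℂ] ℂ, ‖Ψ‖ ≤ 1 ∧ ∀ t, g t ≤ (Ψ (X t)).re

/-- States. -/
def S_st : Prop :=
  ∀ (𝓗 : Type) [NormedAddCommGroup 𝓗] [InnerProductSpace ℂ 𝓗] [CompleteSpace 𝓗]
    (Ψ : BH 𝓗 →L[ℂ] ℂ), ‖Ψ‖ ≤ 1 → Ψ 1 = 1 →
    (∀ X, 0 ≤ Ψ (star X * X)) ∧ (∀ X, Ψ (star X) = conj (Ψ X)) ∧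
    (∀ X Y, ‖Ψ (star X * Y)‖ ^ 2 ≤ (Ψ (star X * X)).re * (Ψ (star Y * Y)).re) ∧
    ∀ X Y Z, ‖Ψ (star X * Z * Y)‖ ^ 2 ≤
      ‖Z‖ ^ 2 * ((Ψ (star X * X)).re * (Ψ (star Y * Y)).re)

/-- The state dominating `G`. -/
def S_hb : Prop :=
  ∀ (K 𝓗 : Type) [NormedAddCommGroup K] [InnerProductSpace ℂ K] [CompleteSpace K]
    [NormedAddCommGroup 𝓗] [InnerProductSpace ℂ 𝓗] [CompleteSpace 𝓗] (T : Ten K 𝓗)
    (N : VonNeumannAlgebra K) (k : ℕ) (ξ : Fin k → K) (G : BH K → BH K → ℂ),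
    ∑ i, ‖ξ i‖ ^ 2 = 1 → SPG N ξ G →
    (∀ (ι : Type) [Fintype ι] (w : ι → BH K), (∀ i, w i ∈ N) → Sym w →
      ∑ i, (G (w i) (w i)).re ≤ ‖Phi T w‖) →
    ∃ Ψ : BH 𝓗 →L[ℂ] ℂ, ‖Ψ‖ ≤ 1 ∧ Ψ 1 = 1 ∧
      (∀ x y, Ψ (T.L y * T.R x) = conj (Ψ (T.L x * T.R y))) ∧
      ∀ v ∈ N, ((G v v).re + (G (star v) (star v)).re) / 2 ≤ (Ψ (T.L v * T.R v)).re

/-- Identification of the form. -/
def S_id : Prop :=
  ∀ (K 𝓗 : Type) [NormedAddCommGroup K] [InnerProductSpace ℂ K] [CompleteSpace K]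
    [NormedAddCommGroup 𝓗] [InnerProductSpace ℂ 𝓗] [CompleteSpace 𝓗] (T : Ten K 𝓗)
    (N : VonNeumannAlgebra K) (k : ℕ) (ξ : Fin k → K) (G : BH K → BH K → ℂ)
    (Ψ : BH 𝓗 →L[ℂ] ℂ), ∑ i, ‖ξ i‖ ^ 2 = 1 → SPG N ξ G → ‖Ψ‖ ≤ 1 → Ψ 1 = 1 →
    (∀ x y, Ψ (T.L y * T.R x) = conj (Ψ (T.L x * T.R y))) →
    (∀ v ∈ N, ((G v v).re + (G (star v) (star v)).re) / 2 ≤ (Ψ (T.L v * T.R v)).re) →
    (∀ v ∈ N, ∀ w ∈ N, Ψ (T.L v * T.R w) = G v w) ∧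
      ∀ w ∈ N, Ψ (T.R w) = conj (∑ i, ⟪ξ i, w (ξ i)⟫_ℂ)

/-- The conditional expectation. -/
def S_e : Prop :=
  ∀ (K 𝓗 : Type) [NormedAddCommGroup K] [InnerProductSpace ℂ K] [CompleteSpace K]
    [NormedAddCommGroup 𝓗] [InnerProductSpace ℂ 𝓗] [CompleteSpace 𝓗] (T : Ten K 𝓗)
    (N : VonNeumannAlgebra K) (k : ℕ) (ξ : Fin k → K) (G : BH K → BH K → ℂ)
    (Ψ : BH 𝓗 →L[ℂ] ℂ), ∑ i, ‖ξ i‖ ^ 2 = 1 → SPG N ξ G → ‖Ψ‖ ≤ 1 → Ψ 1 = 1 →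
    (∀ v ∈ N, ∀ w ∈ N, Ψ (T.L v * T.R w) = G v w) →
    (∀ w ∈ N, Ψ (T.R w) = conj (∑ i, ⟪ξ i, w (ξ i)⟫_ℂ)) → InjC N 1

/-! ### The self-polar form -/

/-- The conjugate Hilbert space. -/
def S_conj : Prop :=
  ∀ (H : Type) [NormedAddCommGroup H] [InnerProductSpace ℂ H] [CompleteSpace H],
    ∃ (Hb : Type) (_ : NormedAddCommGroup Hb) (_ : InnerProductSpace ℂ Hb)
      (_ : CompleteSpace Hb), Nonempty (H ≃ₗᵢ⋆[ℂ] Hb)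

/-- Passage to the GNS space. -/
def S_gns : Prop :=
  ∀ (K : Type) [NormedAddCommGroup K] [InnerProductSpace ℂ K] [CompleteSpace K]
    (N : VonNeumannAlgebra K) (k : ℕ) (ξ : Fin k → K), ∑ i, ‖ξ i‖ ^ 2 = 1 →
    (∀ x ∈ N, (∀ i, x (ξ i) = 0) → x = 0) →
    ∃ (H : Type) (_ : NormedAddCommGroup H) (_ : InnerProductSpace ℂ H) (_ : CompleteSpace H)
      (M : VonNeumannAlgebra H) (η : H) (π : N.toStarSubalgebra →⋆ₐ[ℂ] BH H),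
      CySe M η ∧ (∀ y, y ∈ M ↔ ∃ x, π x = y) ∧
      (∀ x y : N.toStarSubalgebra, ⟪π x η, π y η⟫_ℂ =
        ∑ i, ⟪(x : BH K) (ξ i), (y : BH K) (ξ i)⟫_ℂ) ∧
      ∀ x : N.toStarSubalgebra, ‖π x‖ = ‖(x : BH K)‖

/-- The cyclic case. -/
def S_spc : Prop :=
  ∀ (H : Type) [NormedAddCommGroup H] [InnerProductSpace ℂ H] [CompleteSpace H]
    (M : VonNeumannAlgebra H) (ξ : H), CySe M ξ →
    ∃ G : BH H → BH H → ℂ, SPG M (fun _ : Fin 1 => ξ) G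

/-- Linear Radon-Nikodym theorem. -/
def S_rn : Prop :=
  ∀ (H : Type) [NormedAddCommGroup H] [InnerProductSpace ℂ H] [CompleteSpace H]
    (M : VonNeumannAlgebra H) (ι : Type) [Fintype ι] (ζ : ι → H) (ψ : BH H →ₗ[ℂ] ℂ) (c : ℝ),
    0 ≤ c → (∀ x ∈ M, 0 ≤ ψ (star x * x) ∧ (ψ (star x * x)).re ≤ c * ∑ i, ‖x (ζ i)‖ ^ 2) →
    ∃ m ∈ M, star m = m ∧ (∀ η : H, 0 ≤ (⟪η, m η⟫_ℂ).re ∧ (⟪η, m η⟫_ℂ).re ≤ c * ‖η‖ ^ 2) ∧
      ∀ x ∈ M, ψ x = (1 / 2 : ℂ) * (∑ i, ⟪ζ i, m (x (ζ i))⟫_ℂ + ∑ i, ⟪ζ i, x (m (ζ i))⟫_ℂ)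

/-- Matrices over a von Neumann algebra. -/
def S_mat : Prop :=
  ∀ (H : Type) [NormedAddCommGroup H] [InnerProductSpace ℂ H] [CompleteSpace H]
    (M : VonNeumannAlgebra H) (ι : Type) [Fintype ι] [DecidableEq ι],
    ∃ Mn : VonNeumannAlgebra (HH ι H), ∀ X : BH (HH ι H), X ∈ Mn ↔
      ∃ T : ι → ι → BH H, (∀ i j, T i j ∈ M) ∧ X = opMat T

/-- Radon-Nikodym theorem for matrices with weights. -/
def S_rnm : Prop :=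
  ∀ (H : Type) [NormedAddCommGroup H] [InnerProductSpace ℂ H] [CompleteSpace H]
    (M : VonNeumannAlgebra H) (ξ : H) (n k : ℕ) (t : Fin n → ℝ) (c : Fin k → Fin k → BH H),
    (∀ i, 0 < t i) → (∀ p q, c p q ∈ M.commutant) → PosM (fun p q => c q p) →
    ∃ m : (Fin n × Fin k) → (Fin n × Fin k) → BH H, (∀ a b, m a b ∈ M) ∧ PosM m ∧
      ∀ a b, ∀ x ∈ M, ⟪c a.2 b.2 ξ, x ξ⟫_ℂ = (1 / 2 : ℂ) *
        ((t b.1 : ℂ) * ⟪m a b ξ, x ξ⟫_ℂ + (t a.1 : ℂ) * ⟪star x ξ, star (m a b) ξ⟫_ℂ)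

/-- The scalar approximation. -/
def S_fej : Prop :=
  ∃ (n : ℕ → ℕ) (t : ∀ N, Fin (n N) → ℝ) (C : ℝ), (∀ N, 0 < n N) ∧ (∀ N i, 0 < t N i) ∧
    (∀ N a, 0 ≤ a → a ≤ 1 → |Fj (t N) a| ≤ C) ∧
    ∀ ε : ℝ, 0 < ε → ∀ᶠ N in atTop, ∀ a, 0 ≤ a → a ≤ 1 → |Fj (t N) a - 1| * (a * (1 - a)) ≤ ε

/-- Strong convergence. -/
def S_str : Prop :=
  ∀ (W : Type) [NormedAddCommGroup W] [InnerProductSpace ℂ W] [CompleteSpace W] (A : BH W)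
    (f : ℕ → ℝ → ℝ) (C : ℝ), 0 ≤ A → A ≤ 1 → (∀ N, ContinuousOn (f N) (Set.Icc 0 1)) →
    (∀ N a, 0 ≤ a → a ≤ 1 → |f N a| ≤ C) →
    (∀ ε : ℝ, 0 < ε → ∀ᶠ N in atTop, ∀ a, 0 ≤ a → a ≤ 1 → |f N a - 1| * (a * (1 - a)) ≤ ε) →
    ∀ h ∈ closure (Set.range fun g => (A * (1 - A)) g),
      Tendsto (fun N => cfc (f N) A h) atTop (𝓝 h)

/-- Elementary facts about `PK`, `XX`, `TT`. -/
def S_wf : Prop :=
  ∀ (H Hb : Type) [NormedAddCommGroup H] [InnerProductSpace ℂ H] [CompleteSpace H]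
    [NormedAddCommGroup Hb] [InnerProductSpace ℂ Hb] [CompleteSpace Hb] (c : H ≃ₗᵢ⋆[ℂ] Hb)
    (M : VonNeumannAlgebra H) (ξ : H),
    IsPr (PK c ξ M) ∧ IsPr (pp H Hb) ∧
    (∀ x ∈ M, PK c ξ M (uu c ξ x) = uu c ξ x) ∧
    (∀ y ∈ M.commutant, PK c ξ M (vv c ξ y) = 0) ∧
    XX c ξ M * star (XX c ξ M) = PK c ξ M * pp H Hb * PK c ξ M -
      PK c ξ M * pp H Hb * PK c ξ M * (PK c ξ M * pp H Hb * PK c ξ M) ∧
    0 ≤ TT c ξ M ∧ TT c ξ M * TT c ξ M = XX c ξ M * star (XX c ξ M) ∧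
    TT c ξ M * PK c ξ M = TT c ξ M ∧ PK c ξ M * TT c ξ M = TT c ξ M ∧
    (∀ y ∈ M.commutant, XX c ξ M (vv c ξ y) = PK c ξ M (pp H Hb (vv c ξ y))) ∧
    TT c ξ M (uu c ξ 1) = (1 / 2 : ℂ) • uu c ξ 1 ∧
    XX c ξ M (vv c ξ 1) = (1 / 2 : ℂ) • uu c ξ 1

/-- Density of `{vv y : y ∈ M'}` in the orthogonal complement of `KK`. -/
def S_core : Prop :=
  ∀ (H Hb : Type) [NormedAddCommGroup H] [InnerProductSpace ℂ H] [CompleteSpace H]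
    [NormedAddCommGroup Hb] [InnerProductSpace ℂ Hb] [CompleteSpace Hb] (c : H ≃ₗᵢ⋆[ℂ] Hb)
    (M : VonNeumannAlgebra H) (ξ : H), CySe M ξ →
    ∀ h : WW H Hb, PK c ξ M h = 0 → ∀ ε : ℝ, 0 < ε → ∃ y ∈ M.commutant, ‖vv c ξ y - h‖ ≤ ε

/-- `a`, `1 - a` and `T` are injective on `KK`. -/
def S_tinj : Prop :=
  ∀ (H Hb : Type) [NormedAddCommGroup H] [InnerProductSpace ℂ H] [CompleteSpace H]
    [NormedAddCommGroup Hb] [InnerProductSpace ℂ Hb] [CompleteSpace Hb] (c : H ≃ₗᵢ⋆[ℂ] Hb)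
    (M : VonNeumannAlgebra H) (ξ : H), CySe M ξ →
    ∀ h : WW H Hb, PK c ξ M h = h → (pp H Hb h = 0 → h = 0) ∧ (pp H Hb h = h → h = 0) ∧
      (TT c ξ M h = 0 → h = 0)

/-- The map `M' → M`. -/
def S_sp2 : Prop :=
  ∀ (H Hb : Type) [NormedAddCommGroup H] [InnerProductSpace ℂ H] [CompleteSpace H]
    [NormedAddCommGroup Hb] [InnerProductSpace ℂ Hb] [CompleteSpace Hb] (c : H ≃ₗᵢ⋆[ℂ] Hb)
    (M : VonNeumannAlgebra H) (ξ : H), CySe M ξ →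
    ∀ (k : ℕ) (y : Fin k → Fin k → BH H), (∀ p q, y p q ∈ M.commutant) →
      PosM (fun p q => y q p) →
      ∃ W : Fin k → Fin k → BH H, (∀ p q, W p q ∈ M) ∧ PosM W ∧
        ∀ p q, TT c ξ M (uu c ξ (W p q)) = XX c ξ M (vv c ξ (y p q))

/-- The map `M → M'`. -/
def S_sp1 : Prop :=
  ∀ (H Hb : Type) [NormedAddCommGroup H] [InnerProductSpace ℂ H] [CompleteSpace H]
    [NormedAddCommGroup Hb] [InnerProductSpace ℂ Hb] [CompleteSpace Hb] (c : H ≃ₗᵢ⋆[ℂ] Hb)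
    (M : VonNeumannAlgebra H) (ξ : H), CySe M ξ →
    ∀ (k : ℕ) (w : Fin k → Fin k → BH H), (∀ p q, w p q ∈ M) → PosM (fun p q => w q p) →
      ∃ C : Fin k → Fin k → BH H, (∀ p q, C p q ∈ M.commutant) ∧ PosM C ∧
        ∀ p q, XX c ξ M (vv c ξ (C p q)) = TT c ξ M (uu c ξ (w p q))

/-- Maximality of the geometric mean of commuting operators. -/
def S_gm : Prop :=
  ∀ (W : Type) [NormedAddCommGroup W] [InnerProductSpace ℂ W] [CompleteSpace W]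
    (a b Γ : BH W), 0 ≤ a → 0 ≤ b → a * b = b * a → 0 ≤ Γ →
    (∀ h k : W, ‖⟪k, Γ h⟫_ℂ‖ ^ 2 ≤ (⟪h, a h⟫_ℂ).re * (⟪k, b k⟫_ℂ).re) →
    Γ ≤ CFC.sqrt (a * b)

/-- First properties of the self-polar form. -/
def S_spa : Prop :=
  ∀ (H Hb : Type) [NormedAddCommGroup H] [InnerProductSpace ℂ H] [CompleteSpace H]
    [NormedAddCommGroup Hb] [InnerProductSpace ℂ Hb] [CompleteSpace Hb] (c : H ≃ₗᵢ⋆[ℂ] Hb)
    (M : VonNeumannAlgebra H) (ξ : H), CySe M ξ → Ses M (GG c ξ M) ∧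
    (∀ x ∈ M, 0 ≤ (GG c ξ M x x).re) ∧ (∀ x ∈ M, GG c ξ M x x = 0 → x = 0) ∧
    (∀ x ∈ M, GG c ξ M x 1 = ⟪ξ, x ξ⟫_ℂ) ∧
    ∀ x ∈ M, ∀ y ∈ M, ‖GG c ξ M x y‖ ^ 2 ≤ ‖x ξ‖ ^ 2 * ‖star y ξ‖ ^ 2

/-- Complete positivity of the self-polar form. -/
def S_spcp : Prop :=
  ∀ (H Hb : Type) [NormedAddCommGroup H] [InnerProductSpace ℂ H] [CompleteSpace H]
    [NormedAddCommGroup Hb] [InnerProductSpace ℂ Hb] [CompleteSpace Hb] (c : H ≃ₗᵢ⋆[ℂ] Hb)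
    (M : VonNeumannAlgebra H) (ξ : H), CySe M ξ →
    ∀ (n : ℕ) (a b : Fin n → BH H), (∀ i, a i ∈ M ∧ b i ∈ M) →
    0 ≤ (∑ i, ∑ j, GG c ξ M (star (a i) * a j) (star (b i) * b j)).re

/-- Maximality of the self-polar form. -/
def S_spmax : Prop :=
  ∀ (H Hb : Type) [NormedAddCommGroup H] [InnerProductSpace ℂ H] [CompleteSpace H]
    [NormedAddCommGroup Hb] [InnerProductSpace ℂ Hb] [CompleteSpace Hb] (c : H ≃ₗᵢ⋆[ℂ] Hb)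
    (M : VonNeumannAlgebra H) (ξ : H), CySe M ξ →
    ∀ γ : BH H → BH H → ℂ, Ses M γ → (∀ x ∈ M, 0 ≤ (γ x x).re) →
    (∀ x ∈ M, ∀ y ∈ M, ‖γ x y‖ ^ 2 ≤ ‖x ξ‖ ^ 2 * ‖star y ξ‖ ^ 2) →
    ∀ x ∈ M, (γ x x).re ≤ (GG c ξ M x x).re

/-- Representation of functionals by the self-polar form. -/
def S_sprep : Prop :=
  ∀ (H Hb : Type) [NormedAddCommGroup H] [InnerProductSpace ℂ H] [CompleteSpace H]
    [NormedAddCommGroup Hb] [InnerProductSpace ℂ Hb] [CompleteSpace Hb] (c : H ≃ₗᵢ⋆[ℂ] Hb)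
    (M : VonNeumannAlgebra H) (ξ : H), CySe M ξ →
    ∀ ψ : BH H →ₗ[ℂ] ℂ, (∀ a ∈ M, ∀ b ∈ M, ‖ψ (star b * a)‖ ^ 2 ≤ ‖a ξ‖ ^ 2 * ‖b ξ‖ ^ 2) →
    ∃ y ∈ M, ‖y‖ ≤ 1 ∧ ∀ x ∈ M, ψ x = GG c ξ M x y

end H917R2.BP
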