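import Mathlib
import Pool.Agent.H917R2.BP.Stm

/-!
Bounded projections onto von Neumann algebras: assembly of the row-column bounded case.
-/

set_option autoImplicit false

open scoped ComplexOrder InnerProductSpace ComplexConjugate Topology

noncomputable section

namespace H917R2.BP

open H759R2.Kad H710R2.DP H917R2.Tr

theorem injC_triv {K : Type} [NormedAddCommGroup K] [InnerProductSpace ℂ K] [CompleteSpace K]
    [Subsingleton K] (N : VonNeumannAlgebra K) : InjC N 1 := by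
  refine ⟨0, fun x => ?_, fun x => ?_, fun m _ => Subsingleton.elim _ _⟩
  · simp
  · exact zero_mem N

theorem t_RCI (h_spf : S_spf) (h_ten : S_ten) (h_diag : S_diag) (h_hb : S_hb) (h_id : S_id)
    (h_e : S_e) : S_RCI := by
  intro K _ _ _ N hF P C κ hC hκ hP hR
  rcases subsingleton_or_nontrivial K with hK | hK
  · exact injC_triv N
  obtain ⟨k, ξ, hξ⟩ := hF
  have hs : 0 < ∑ i, ‖ξ i‖ ^ 2 := by
    have h0 : 0 ≤ ∑ i, ‖ξ i‖ ^ 2 := Finset.sum_nonneg fun i _ => by positivity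
    rcases h0.lt_or_eq with h | h
    · exact h
    · exfalso
      have h1 : ∀ i, ξ i = 0 := by
        intro i
        have := (Finset.sum_eq_zero_iff_of_nonneg (fun i _ => by positivity)).mp h.symm i
          (Finset.mem_univ i)
        simpa using this
      have h2 : (1 : BH K) = 0 := hξ 1 (one_mem N) fun i => by rw [h1 i, map_zero]
      obtain ⟨a, ha⟩ := exists_ne (0 : K)
      apply ha
      have := congrArg (fun T : BH K => T a) h2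
      simpa using this
  set s := ∑ i, ‖ξ i‖ ^ 2 with hsdef
  set η : Fin k → K := fun i => ((Real.sqrt s)⁻¹ : ℂ) • ξ i with hη
  have hη1 : ∑ i, ‖η i‖ ^ 2 = 1 := by
    have : ∀ i, ‖η i‖ ^ 2 = s⁻¹ * ‖ξ i‖ ^ 2 := by
      intro i
      rw [hη]
      simp only [norm_smul, norm_inv, Complex.norm_real, Real.norm_eq_abs]
      rw [mul_pow, inv_pow, sq_abs, Real.sq_sqrt hs.le]
    rw [Finset.sum_congr rfl fun i _ => this i, ← Finset.mul_sum, ← hsdef, inv_mul_cancel₀ hs.ne']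
  have hη2 : ∀ x ∈ N, (∀ i, x (η i) = 0) → x = 0 := by
    intro x hx h
    apply hξ x hx
    intro i
    have h1 := h i
    rw [hη] at h1
    simp only [map_smul] at h1
    rcases smul_eq_zero.mp h1 with h2 | h2
    · exfalso
      have : (Real.sqrt s : ℂ) = 0 := inv_eq_zero.mp h2
      have h3 : Real.sqrt s = 0 := by exact_mod_cast this
      exact (Real.sqrt_pos.mpr hs).ne' h3
    · exact h2
  obtain ⟨G, hG⟩ := h_spf K N k η hη1 hη2
  obtain ⟨𝓗, _, _, _, ⟨T⟩⟩ := h_ten K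
  obtain ⟨Ψ, h1, h2, h3, h4⟩ := h_hb K 𝓗 T N k η G hη1 hG
    (h_diag K 𝓗 T N k η G P C κ hη1 hG hC hκ hP hR)
  obtain ⟨h5, h6⟩ := h_id K 𝓗 T N k η G Ψ hη1 hG h1 h2 h3 h4
  exact h_e K 𝓗 T N k η G Ψ hη1 hG h1 h2 h5 h6

theorem t_FIN (h_mu : V_mu) (h_trs : S_trs) (h_amp : S_amp) (h_rc : S_rc) (h_amptr : S_amptr)
    (h_ten : S_ten) (h_uni1 : S_uni1) (h_uni2 : S_uni2) (h_uni3 : S_uni3) (h_cst : S_cst)
    (h_lift : S_lift) (h_trinj : S_trinj) : S_FIN := by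
  intro K _ _ _ N hF hna hfi P C hC hP
  rcases subsingleton_or_nontrivial K with hK | hK
  · exact injC_triv N
  obtain ⟨ζ, hζ⟩ := h_trs K N hF hfi
  obtain ⟨k, hk⟩ : ∃ k : ℕ, 54 * C ^ 2 ≤ 2 ^ k :=
    (pow_unbounded_of_one_lt (54 * C ^ 2) (one_lt_two)).imp fun _ h => h.le
  obtain ⟨e, he⟩ := h_mu K N 1 (one_mem N) ⟨star_one _, one_mul 1⟩ hna k
  obtain ⟨n, hn⟩ : ∃ n : ℕ, 2 ^ k = n + 1 := ⟨2 ^ k - 1, by
    have : 0 < 2 ^ k := by positivity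
    omega⟩
  have hn' : (54 * C ^ 2 : ℝ) ≤ (n : ℝ) + 1 := by
    have : ((2 ^ k : ℕ) : ℝ) = (n : ℝ) + 1 := by rw [hn]; push_cast; ring
    rw [← this]; push_cast; exact hk
  clear hk
  revert e
  rw [hn]
  intro e he
  obtain ⟨K0, _, _, _, _, N0, V, hA, hV⟩ := h_amp K N n e he
  obtain ⟨P1, hP1, hR1⟩ := h_rc K K0 N N0 n V hA P C hC hP
  obtain ⟨ζ0, hζ0, htr⟩ := h_amptr K K0 N N0 n V hA hV ζ hζ
  obtain ⟨𝓗, _, _, _, ⟨T⟩⟩ := h_ten K0
  have hδ : (0 : ℝ) < (n : ℝ) + 1 := by positivity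
  have hκδ : 9 * (3 * C ^ 2) * (1 / ((n : ℝ) + 1)) ≤ 1 / 2 := by
    rw [mul_one_div, div_le_iff₀ hδ]
    linarith
  have h1 := h_uni1 K0 𝓗 T N0 ζ0 P1 C (3 * C ^ 2) (1 / ((n : ℝ) + 1)) hζ0 hC (by positivity)
    (by positivity) hP1 hR1 hκδ
  have h3 : ∀ z, IsCP N0 z → z ≠ 0 → ∀ (ι : Type) [Fintype ι] (u : ι → BH K0), UniF N0 u →
      ∀ ε : ℝ, 0 < ε →
      ∃ h : 𝓗, ‖h‖ = 1 ∧ T.L z h = h ∧ T.R z h = h ∧
        ∀ i, ‖T.L (u i) (T.R (u i) h) - h‖ ≤ ε := by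
    intro z hz hz0
    exact h_uni3 K0 𝓗 T N0 z hz
      (h_uni2 K0 𝓗 T N0 (3 * C ^ 2) z hz (by positivity) (h1 z hz hz0))
  exact h_trinj K N ζ hζ (h_lift K K0 N N0 n V hA hV ζ ζ0 htr (h_cst K0 𝓗 T N0 ζ0 hζ0 h3))

end H917R2.BP
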