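import Mathlib
import Pool.Agent.H917R2.BP.Stm

/-!
Bounded projections onto von Neumann algebras: top level assembly.
-/

set_option autoImplicit false

noncomputable section

namespace H917R2.BP

open H759R2.Kad H710R2.DP H917R2.Tr

theorem isCP_one {H : Type} [NormedAddCommGroup H] [InnerProductSpace ℂ H] [CompleteSpace H]
    (M : VonNeumannAlgebra H) : IsCP M 1 :=
  ⟨⟨star_one _, one_mul 1⟩, one_mem M, fun a _ => by rw [one_mul, mul_one]⟩

theorem rci_case (h_cut : S_cut) (h_cutP : S_cutP) (h_cutI : S_cutI) (h_supp : S_supp)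
    (h_cutF : S_cutF) (h_net : S_net) (h_RCI : S_RCI)
    (K : Type) [NormedAddCommGroup K] [InnerProductSpace ℂ K] [CompleteSpace K]
    (N : VonNeumannAlgebra K) (P : BH K →ₗ[ℂ] BH K) (C κ : ℝ) (hC : 0 ≤ C) (hκ : 0 ≤ κ)
    (hP : BPr N P C) (hR : RCB P κ 0) : InjC N 1 := by
  apply h_net K N
  intro F
  obtain ⟨e, heN, hep, heF, hsep⟩ := h_supp K N F
  refine ⟨e, heN, hep, heF, ?_⟩
  obtain ⟨K', _, _, _, N', io, hcor⟩ := h_cut K N e heN hep
  apply h_cutI K K' N e N' io hcor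
  obtain ⟨P', hP', hR'⟩ := h_cutP K K' N e N' io hcor P C hC hP
  exact h_RCI K' N' (h_cutF K K' N e N' io hcor F heF hsep) P' C κ hC hκ hP' (hR' κ hR)

theorem fin_case (h_cut : S_cut) (h_cutP : S_cutP) (h_cutI : S_cutI) (h_cutB : S_cutB)
    (h_supp : S_supp) (h_cutF : S_cutF) (h_net : S_net) (h_FIN : S_FIN)
    (K : Type) [NormedAddCommGroup K] [InnerProductSpace ℂ K] [CompleteSpace K]
    (N : VonNeumannAlgebra K) (P : BH K →ₗ[ℂ] BH K) (C : ℝ) (hC : 0 ≤ C)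
    (hP : BPr N P C) (hna : NoAb N 1) (hfi : FinP N 1) : InjC N 1 := by
  apply h_net K N
  intro F
  obtain ⟨e, heN, hep, heF, hsep⟩ := h_supp K N F
  refine ⟨e, heN, hep, heF, ?_⟩
  obtain ⟨K', _, _, _, N', io, hcor⟩ := h_cut K N e heN hep
  apply h_cutI K K' N e N' io hcor
  obtain ⟨P', hP', -⟩ := h_cutP K K' N e N' io hcor P C hC hP
  obtain ⟨hna', hfi'⟩ := h_cutB K K' N e N' io hcor 1 (isCP_one N) (one_mul e) hna hfi
  exact h_FIN K' N' (h_cutF K K' N e N' io hcor F heF hsep) hna' hfi' P' C hC hP'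

theorem t_TOP (h_cut : S_cut) (h_cutP : S_cutP) (h_cutI : S_cutI) (h_cutB : S_cutB)
    (h_cutA : S_cutA) (h_cutC : S_cutC) (h_supp : S_supp) (h_cutF : S_cutF) (h_net : S_net)
    (h_glue : S_glue) (h_tri : S_tri) (h_C : S_C) (h_A : S_A) (h_RCI : S_RCI) (h_FIN : S_FIN) :
    S_TOP := by
  intro H _ _ _ M ⟨P0, hmem, hid⟩
  have hP : BPr M (P0 : BH H →ₗ[ℂ] BH H) ‖P0‖ :=
    ⟨fun x => P0.le_opNorm x, hmem, hid⟩
  have hC : (0 : ℝ) ≤ ‖P0‖ := norm_nonneg _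
  have hinj : InjC M 1 := by
    apply h_glue H M
    intro q hq hq0
    obtain ⟨z, hz, hz0, hqz, hcase⟩ := h_tri H M q hq hq0
    refine ⟨z, hz, hz0, hqz, ?_⟩
    obtain ⟨K, _, _, _, N, io, hcor⟩ := h_cut H M z hz.2.1 hz.1
    apply h_cutI H K M z N io hcor
    obtain ⟨P1, hP1, -⟩ := h_cutP H K M z N io hcor _ _ hC hP
    rcases hcase with hA | hPC | ⟨hna, hfi⟩
    · obtain ⟨κ, hκ, hR⟩ := h_A K N (h_cutA H K M z N io hcor hz hA) P1 _ hC hP1
      exact rci_case h_cut h_cutP h_cutI h_supp h_cutF h_net h_RCI K N P1 _ κ hC hκ hP1 hR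
    · obtain ⟨P2, hP2, hR⟩ := h_C K N (h_cutC H K M z N io hcor hz hPC) P1 _ hC hP1
      exact rci_case h_cut h_cutP h_cutI h_supp h_cutF h_net h_RCI K N P2 _ _ hC (by positivity)
        hP2 hR
    · obtain ⟨hna', hfi'⟩ := h_cutB H K M z N io hcor z hz hz.1.2 hna hfi
      exact fin_case h_cut h_cutP h_cutI h_cutB h_supp h_cutF h_net h_FIN K N P1 _ hC hP1
        hna' hfi'
  obtain ⟨E, hE1, hE2, hE3⟩ := hinj
  refine ⟨E.mkContinuous 1 (fun x => by rw [one_mul]; exact hE1 x), ?_, ?_, ?_⟩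
  · intro x
    simpa using hE2 x
  · intro m hm
    simpa using hE3 m hm
  · exact LinearMap.mkContinuous_norm_le _ zero_le_one _

end H917R2.BP
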